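import Pool.Agent.helper62.FSQ.SpecQ

/-!
# fq:CNTQ, the number of patterns (helper63)
-/

open MeasureTheory Set

set_option autoImplicit false

namespace Pool.Agent.FS

noncomputable section

/-- **Row CNTQ** -/
theorem CNTQ_proof : CNTQ_stmt := by
  intro S x k hx0 hx1
  have h1 : (1 + x) ^ S.card = ∑ A ∈ S.powerset, x ^ A.card := by
    have := Finset.sum_pow_mul_eq_add_pow x 1 S
    simp only [one_pow, mul_one] at this
    rw [this, add_comm]
  rw [h1, ← nsmul_eq_mul, ← Finset.sum_const]
  refine (Finset.sum_le_sum (fun A hA => ?_)).trans (Finset.sum_le_sum_of_subset_of_nonneg (Finset.filter_subset _ _) fun A _ _ => by positivity)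
  rw [Finset.mem_filter] at hA
  rw [← Real.rpow_natCast x A.card]
  exact Real.rpow_le_rpow_of_exponent_ge hx0 hx1 hA.2

end

end Pool.Agent.FS
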