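import Pool.Agent.helper62.FSQ.SpecQ

/-!
# fq:FITQ, iteration over a set of good steps (helper63)
-/

open MeasureTheory Set

set_option autoImplicit false

namespace Pool.Agent.FS

noncomputable section

theorem FITQ_cont (S : Finset ℤ) (a : ℤ → ℂ) : Continuous (tp S a) := by
  unfold tp ee
  fun_prop

theorem FITQ_norm (K τ : ℝ) (hK : 1 ≤ K) (hτ0 : 0 ≤ τ) (hτ : τ ≤ 1 / 20) (F φ : ℝ → ℂ) (hF : Continuous F) (hφ : Continuous φ)
    (E : Set ℝ) (hE : MeasurableSet E) (h1 : ∀ v, ‖φ v‖ ≤ 1) (h2 : ∀ v ∈ E, ‖φ v‖ ≤ τ)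
    (h3 : ∫ v in Icc (0 : ℝ) 4, ‖F v‖ ^ 2 ≤ K * ∫ v in E ∩ Icc (0 : ℝ) 4, ‖F v‖ ^ 2) :
    ∫ v in Icc (0 : ℝ) 4, ‖φ v * F v‖ ^ 2 ≤ (1 - 1 / (2 * K)) * ∫ v in Icc (0 : ℝ) 4, ‖F v‖ ^ 2 := by
  have hFi : IntegrableOn (fun v => ‖F v‖ ^ 2) (Icc (0 : ℝ) 4) := (by fun_prop : Continuous fun v => ‖F v‖ ^ 2).continuousOn.integrableOn_Icc
  have hGi : IntegrableOn (fun v => ‖φ v * F v‖ ^ 2) (Icc (0 : ℝ) 4) := (by fun_prop : Continuous fun v => ‖φ v * F v‖ ^ 2).continuousOn.integrableOn_Icc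
  have e1 := integral_inter_add_diff (μ := volume) hE hFi
  have e2 := integral_inter_add_diff (μ := volume) hE hGi
  rw [inter_comm] at e1 e2
  have k1 : ∫ v in E ∩ Icc (0 : ℝ) 4, ‖φ v * F v‖ ^ 2 ≤ τ ^ 2 * ∫ v in E ∩ Icc (0 : ℝ) 4, ‖F v‖ ^ 2 := by
    rw [← integral_const_mul]
    refine setIntegral_mono_on (hGi.mono_set inter_subset_right) ((hFi.mono_set inter_subset_right).const_mul _) (hE.inter measurableSet_Icc) ?_
    intro v hv
    rw [norm_mul, mul_pow]
    exact mul_le_mul_of_nonneg_right (pow_le_pow_left₀ (norm_nonneg _) (h2 v hv.1) 2) (by positivity)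
  have k2 : ∫ v in Icc (0 : ℝ) 4 \ E, ‖φ v * F v‖ ^ 2 ≤ ∫ v in Icc (0 : ℝ) 4 \ E, ‖F v‖ ^ 2 := by
    refine setIntegral_mono_on (hGi.mono_set diff_subset) (hFi.mono_set diff_subset) (measurableSet_Icc.diff hE) ?_
    intro v hv
    rw [norm_mul, mul_pow]
    have := pow_le_pow_left₀ (norm_nonneg _) (h1 v) 2
    have h0 : (0 : ℝ) ≤ ‖F v‖ ^ 2 := by positivity
    nlinarith
  obtain ⟨A, hA⟩ : ∃ A, A = ∫ v in Icc (0 : ℝ) 4, ‖F v‖ ^ 2 := ⟨_, rfl⟩
  obtain ⟨AE, hAE⟩ : ∃ A, A = ∫ v in E ∩ Icc (0 : ℝ) 4, ‖F v‖ ^ 2 := ⟨_, rfl⟩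
  obtain ⟨AD, hAD⟩ : ∃ A, A = ∫ v in Icc (0 : ℝ) 4 \ E, ‖F v‖ ^ 2 := ⟨_, rfl⟩
  rw [← e2]
  rw [← hA, ← hAE, ← hAD] at e1
  rw [← hAE] at k1
  rw [← hAD] at k2
  rw [← hA, ← hAE] at h3
  rw [← hA]
  have hAE0 : 0 ≤ AE := by rw [hAE]; exact integral_nonneg fun v => by positivity
  have hK0 : 0 < K := by linarith
  have k3 : A / K ≤ AE := by rw [div_le_iff₀ hK0]; linarith
  have k4 : (1 - 1 / (2 * K)) * A = A - A / K / 2 := by field_simp
  rw [k4]
  have k5 : τ ^ 2 * AE ≤ 1 / 2 * AE := mul_le_mul_of_nonneg_right (by nlinarith) hAE0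
  linarith

/-- **Row FITQ** -/
theorem FITQ_proof (h1 : LSM_stmt) (h2 : MUL_stmt) (h3 : CUT_stmt) (h4 : PAR_stmt) : FITQ_stmt := by
  intro c hc0 hc1
  obtain ⟨K, R1, hK, hR1, hLS⟩ := h1 (c / 4) 1 (by positivity) (by linarith) le_rfl
  have hK0 : 0 < K := by linarith
  obtain ⟨τ, hτd⟩ : ∃ τ : ℝ, τ = 1 / (20 * K) := ⟨_, rfl⟩
  have hτ0 : 0 < τ := by rw [hτd]; positivity
  have hτ20 : τ ≤ 1 / 20 := by
    rw [hτd]; exact one_div_le_one_div_of_le (by norm_num) (by linarith)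
  obtain ⟨B, hB1, hCUT⟩ := h3 c τ hc0 hc1 hτ0 (by linarith)
  have hB0 : (1 : ℝ) ≤ B := by exact_mod_cast hB1
  obtain ⟨H, hHd⟩ : ∃ H : ℕ, H = ⌈32 * (B : ℝ) / c⌉₊ + 2 := ⟨_, rfl⟩
  have hH2 : 2 ≤ H := by rw [hHd]; omega
  have hHc : 32 * (B : ℝ) / c ≤ (H : ℝ) - 1 := by
    have := Nat.le_ceil (32 * (B : ℝ) / c)
    rw [hHd]; push_cast; linarith
  have hH1 : (1 : ℝ) < H := by exact_mod_cast (by omega : 1 < H)
  obtain ⟨w, hw⟩ := pow_unbounded_of_one_lt R1 hH1
  have hτ1 : 0 < 1 - τ := by linarith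
  have hK2 : 0 < 1 - 1 / (2 * K) := by
    have : 1 / (2 * K) ≤ 1 / 2 := one_div_le_one_div_of_le (by norm_num) (by linarith)
    linarith
  refine ⟨(1 - 1 / (2 * K)) / (1 - τ) ^ 2, H, w, by positivity, ?_, hH2, ?_⟩
  · rw [div_lt_one (by positivity)]
    have : 1 / (2 * K) = 10 * τ := by rw [hτd]; field_simp; norm_num
    rw [this]
    nlinarith
  intro TT Y J a hY hgap hgapJ
  -- the induction
  have hind : ∀ n : ℕ, ∃ (S : Finset ℤ) (b : ℤ → ℂ), (∀ j' ∈ S, ∃ j ∈ J, |((j' - j : ℤ) : ℝ)| ≤ ∑ s ∈ Finset.range n, (B : ℝ) * (H : ℝ) ^ s) ∧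
      (∀ v ∈ Y ∩ Icc (0 : ℝ) 1, (1 - τ) ^ (TT.filter (· < n)).card * ‖tp J a v‖ ≤ ‖tp S b v‖) ∧
      ∫ v in Icc (0 : ℝ) 4, ‖tp S b v‖ ^ 2 ≤ (1 - 1 / (2 * K)) ^ (TT.filter (· < n)).card * ∫ v in Icc (0 : ℝ) 4, ‖tp J a v‖ ^ 2 := by
    intro n
    induction n with
    | zero =>
      refine ⟨J, a, fun j' hj' => ⟨j', hj', by simp⟩, fun v _ => by simp, by simp⟩
    | succ n ih =>
      obtain ⟨S, b, q1, q2, q3⟩ := ih
      by_cases hn : n ∈ TT
      · have hfil : TT.filter (· < n + 1) = insert n (TT.filter (· < n)) := by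
          ext t
          simp only [Finset.mem_filter, Finset.mem_insert]
          constructor
          · rintro ⟨ht, htn⟩
            by_cases htn2 : t = n
            · exact Or.inl htn2
            · exact Or.inr ⟨ht, by omega⟩
          · rintro (rfl | ⟨ht, htn⟩)
            · exact ⟨hn, by omega⟩
            · exact ⟨ht, by omega⟩
        have hcard : (TT.filter (· < n + 1)).card = (TT.filter (· < n)).card + 1 := by
          rw [hfil, Finset.card_insert_of_notMem (by simp)]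
        have hM1 : 1 ≤ H ^ n := Nat.one_le_pow _ _ (by omega)
        have hM1' : (1 : ℝ) ≤ (H : ℝ) ^ n := one_le_pow₀ hH1.le
        obtain ⟨p, E, r1, r2, r3, r4, r5, r6⟩ := hCUT (H ^ n) Y hM1 (hgap n hn)
        obtain ⟨S', b', s1, s2⟩ := h2 S (Finset.Icc (-((B * H ^ n : ℕ) : ℤ)) (B * H ^ n : ℕ)) b p
        refine ⟨S', b', ?_, ?_, ?_⟩
        · intro j' hj'
          obtain ⟨i, hi, k, hk, rfl⟩ := s2 j' hj'
          obtain ⟨j, hj, hij⟩ := q1 i hi
          refine ⟨j, hj, ?_⟩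
          rw [Finset.sum_range_succ]
          have hk2 : |(k : ℝ)| ≤ (B : ℝ) * (H : ℝ) ^ n := by
            rw [Finset.mem_Icc] at hk
            rw [abs_le]
            constructor
            · have := hk.1
              have h5 : ((-((B * H ^ n : ℕ) : ℤ) : ℤ) : ℝ) ≤ (k : ℝ) := by exact_mod_cast this
              push_cast at h5
              linarith
            · have := hk.2
              have h5 : (k : ℝ) ≤ (((B * H ^ n : ℕ) : ℤ) : ℝ) := by exact_mod_cast this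
              push_cast at h5
              linarith
          have h6 : (((i + k - j : ℤ)) : ℝ) = ((i - j : ℤ) : ℝ) + (k : ℝ) := by push_cast; ring
          rw [h6]
          exact (abs_add_le _ _).trans (add_le_add hij hk2)
        · intro v hv
          rw [s1 v, norm_mul, hcard, pow_succ]
          have h5 := r6 v hv
          have h6 := q2 v hv
          calc (1 - τ) ^ (TT.filter (· < n)).card * (1 - τ) * ‖tp J a v‖ = (1 - τ) * ((1 - τ) ^ (TT.filter (· < n)).card * ‖tp J a v‖) := by ring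
            _ ≤ _ := mul_le_mul h5 h6 (by positivity) (norm_nonneg _)
        · have hLSS := hLS (H ^ n) S b E hM1 r1 r2 r3 ?_
          · have h5 := FITQ_norm K τ hK hτ0.le hτ20 (tp S b) (tp (Finset.Icc (-((B * H ^ n : ℕ) : ℤ)) (B * H ^ n : ℕ)) p)
              (FITQ_cont _ _) (FITQ_cont _ _) E r1 r4 r5 hLSS
            simp only [s1]
            refine h5.trans ?_
            rw [hcard, pow_succ]
            calc (1 - 1 / (2 * K)) * ∫ v in Icc (0 : ℝ) 4, ‖tp S b v‖ ^ 2 ≤ (1 - 1 / (2 * K)) * ((1 - 1 / (2 * K)) ^ (TT.filter (· < n)).card * ∫ v in Icc (0 : ℝ) 4, ‖tp J a v‖ ^ 2) :=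
                  mul_le_mul_of_nonneg_left q3 hK2.le
              _ = _ := by ring
          · intro R hR1' hR2' ξ
            push_cast at hR1' hR2'
            rw [one_mul] at hR1'
            obtain ⟨y, hy, hy2⟩ := hgapJ n hn R (by push_cast; exact hR1') (by
              push_cast
              rw [pow_add]
              refine hR2'.trans ?_
              rw [mul_comm]
              exact mul_le_mul_of_nonneg_left hw.le (by positivity)) ξ
            refine ⟨y, hy, fun j' hj' => ?_⟩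
            obtain ⟨j, hj, hjj⟩ := q1 j' hj'
            have h5 := hy2 j hj
            have h6 : ∑ s ∈ Finset.range n, (B : ℝ) * (H : ℝ) ^ s ≤ c / 32 * R := by
              rw [← Finset.mul_sum]
              have h7 : (∑ s ∈ Finset.range n, (H : ℝ) ^ s) * ((H : ℝ) - 1) = (H : ℝ) ^ n - 1 := geom_sum_mul (H : ℝ) n
              have h8 : 0 ≤ ∑ s ∈ Finset.range n, (H : ℝ) ^ s := Finset.sum_nonneg fun s _ => by positivity
              have h9 : (∑ s ∈ Finset.range n, (H : ℝ) ^ s) * (32 * (B : ℝ) / c) ≤ (H : ℝ) ^ n - 1 := by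
                rw [← h7]; exact mul_le_mul_of_nonneg_left hHc h8
              have h10 : (B : ℝ) * ∑ s ∈ Finset.range n, (H : ℝ) ^ s = c / 32 * ((∑ s ∈ Finset.range n, (H : ℝ) ^ s) * (32 * (B : ℝ) / c)) := by
                field_simp
              rw [h10]
              refine mul_le_mul_of_nonneg_left ?_ (by positivity)
              linarith
            have h11 : Real.pi * j' / 2 - y = (Real.pi * j / 2 - y) + Real.pi / 2 * ((j' - j : ℤ) : ℝ) := by push_cast; ring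
            have h12 : |Real.pi / 2 * ((j' - j : ℤ) : ℝ)| ≤ 2 * (c / 32 * R) := by
              rw [abs_mul, abs_of_pos (by positivity)]
              have hpi : Real.pi / 2 ≤ 2 := by linarith [Real.pi_le_four]
              exact mul_le_mul hpi (hjj.trans h6) (abs_nonneg _) (by norm_num)
            rw [h11]
            have h13 := abs_sub_abs_le_abs_sub (Real.pi * j / 2 - y) (-(Real.pi / 2 * ((j' - j : ℤ) : ℝ)))
            rw [abs_neg, sub_neg_eq_add] at h13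
            have hR0 : 0 < R := by linarith
            have hcR : 0 < c * R := by positivity
            linarith
      · have hfil : TT.filter (· < n + 1) = TT.filter (· < n) := by
          ext t
          simp only [Finset.mem_filter]
          constructor
          · rintro ⟨ht, htn⟩
            refine ⟨ht, ?_⟩
            have : t ≠ n := fun h => hn (h ▸ ht)
            omega
          · rintro ⟨ht, htn⟩
            exact ⟨ht, by omega⟩
        rw [hfil]
        refine ⟨S, b, ?_, q2, q3⟩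
        intro j' hj'
        obtain ⟨j, hj, hjj⟩ := q1 j' hj'
        refine ⟨j, hj, hjj.trans ?_⟩
        rw [Finset.sum_range_succ]
        have : 0 ≤ (B : ℝ) * (H : ℝ) ^ n := by positivity
        linarith
  obtain ⟨S, b, -, q2, q3⟩ := hind (TT.sup id + 1)
  have hfil : TT.filter (· < TT.sup id + 1) = TT := by
    refine Finset.filter_true_of_mem fun t ht => ?_
    have := Finset.le_sup (f := id) ht
    simp only [id] at this
    omega
  rw [hfil] at q2 q3
  rw [h4 J a] at q3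
  have hYm : MeasurableSet (Y ∩ Icc (0 : ℝ) 1) := hY.inter measurableSet_Icc
  have hi1 : ∀ (S : Finset ℤ) (b : ℤ → ℂ), IntegrableOn (fun v => ‖tp S b v‖ ^ 2) (Icc (0 : ℝ) 4) := fun S b => by
    have := FITQ_cont S b
    exact (by fun_prop : Continuous fun v => ‖tp S b v‖ ^ 2).continuousOn.integrableOn_Icc
  have hsub : Y ∩ Icc (0 : ℝ) 1 ⊆ Icc (0 : ℝ) 4 := fun v hv => ⟨hv.2.1, hv.2.2.trans (by norm_num)⟩
  have k1 : ((1 - τ) ^ 2) ^ TT.card * ∫ v in Y ∩ Icc (0 : ℝ) 1, ‖tp J a v‖ ^ 2 ≤ ∫ v in Y ∩ Icc (0 : ℝ) 1, ‖tp S b v‖ ^ 2 := by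
    rw [← integral_const_mul]
    refine setIntegral_mono_on (((hi1 J a).mono_set hsub).const_mul _) ((hi1 S b).mono_set hsub) hYm ?_
    intro v hv
    have h5 := pow_le_pow_left₀ (by positivity) (q2 v hv) 2
    refine le_trans (le_of_eq ?_) h5
    rw [mul_pow, ← pow_mul, ← pow_mul, mul_comm 2]
  have k2 : ∫ v in Y ∩ Icc (0 : ℝ) 1, ‖tp S b v‖ ^ 2 ≤ ∫ v in Icc (0 : ℝ) 4, ‖tp S b v‖ ^ 2 :=
    setIntegral_mono_set (hi1 S b) (ae_of_all _ fun v => by positivity) hsub.eventuallyLE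
  have k3 := k1.trans (k2.trans q3)
  rw [div_pow]
  have hpos : 0 < ((1 - τ) ^ 2) ^ TT.card := by positivity
  have k4 : ∫ v in Y ∩ Icc (0 : ℝ) 1, ‖tp J a v‖ ^ 2 ≤ (1 - 1 / (2 * K)) ^ TT.card * (4 * ∑ j ∈ J, ‖a j‖ ^ 2) / ((1 - τ) ^ 2) ^ TT.card := by
    rw [le_div_iff₀ hpos]
    linarith
  refine k4.trans (le_of_eq ?_)
  ring

end

end Pool.Agent.FS
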